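import Pool.Agent.Lib_helper70.Corson.AxR
import Pool.Agent.Lib_helper89.Corson.Small

/-!
# Corson compacta and compactness of ladder systems: definitions
-/

set_option autoImplicit false

namespace Pool.Agent.Lib_helper70.Lad

open Set Cardinal Topology Filter Order
open Pool.Agent.Lib_helper70.Cor Pool.Agent.Lib_helper89.Corson

variable {X : Type} [TopologicalSpace X]

/-- `A` is `W`-good: two points of the closure of the set of points of `A` which are not separated
by the functions of `A` are not separated by the functions of `W`. -/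
def Gd (A W : Set (X ⊕ C(X, ℝ))) : Prop :=
  ∀ x ∈ KK A, ∀ y ∈ KK A, (∀ f ∈ fns A, f x = f y) → ∀ f ∈ fns W, f x = f y

/-- club many countable subsets of `W` are `W`-good -/
def NS (W : Set (X ⊕ C(X, ℝ))) : Prop :=
  ∃ g : Finset (X ⊕ C(X, ℝ)) → Set (X ⊕ C(X, ℝ)), (∀ s, (g s).Countable) ∧ Cld g W ∧
    ∀ N ⊆ W, N.Countable → Cld g N → Gd N W

/-- the operations which choose points with prescribed approximate values of finitely many
functions -/
noncomputable def g0 [CompactSpace X] : Finset (X ⊕ C(X, ℝ)) → Set (X ⊕ C(X, ℝ)) := gg fun _ => ∅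

theorem g0_countable [CompactSpace X] (s : Finset (X ⊕ C(X, ℝ))) : (g0 s).Countable :=
  gg_countable (fun _ => countable_empty) s

/-- `X` is a Frechet space -/
def Fr (X : Type) [TopologicalSpace X] : Prop := ∀ (A : Set X) (x : X), x ∈ closure A →
  ∃ a : ℕ → X, (∀ n, a n ∈ A) ∧ Tendsto a atTop (𝓝 x)

/-- the first elements of `W` in an enumeration -/
def AA {α : Type} [LinearOrder α] {W : Set (X ⊕ C(X, ℝ))} (e : α ≃ W) (β : α) :
    Set (X ⊕ C(X, ℝ)) := (fun i => (e i : X ⊕ C(X, ℝ))) '' Iio β

end Pool.Agent.Lib_helper70.Lad
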